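import Mathlib

set_option autoImplicit false

namespace Pool.Agent.Results.MP_a87573_co.DistinctRoots

open Finset Polynomial

variable {V : Type} [Fintype V] [DecidableEq V]

/-- `S` is an edge covering: every vertex is an endpoint of at least one edge of `S`. -/
def IsEdgeCovering (S : Finset (Sym2 V)) : Prop := ∀ v : V, ∃ e ∈ S, v ∈ e

instance (S : Finset (Sym2 V)) : Decidable (IsEdgeCovering S) := by
  unfold IsEdgeCovering; infer_instance

/-- `e(G, i)`: the number of edge coverings of `G` with exactly `i` edges. -/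
def coverCount (G : SimpleGraph V) [DecidableRel G.Adj] (i : ℕ) : ℕ :=
  #{S ∈ G.edgeFinset.powerset | S.card = i ∧ IsEdgeCovering S}

/-- The edge cover polynomial `E(G, x)`. -/
noncomputable def edgeCoverPoly (G : SimpleGraph V) [DecidableRel G.Adj] : ℂ[X] :=
  ∑ i ∈ range (#G.edgeFinset + 1), (coverCount G i : ℂ[X]) * X ^ i

variable (G : SimpleGraph V) [DecidableRel G.Adj]

theorem poly_eq_sum :
    edgeCoverPoly G = ∑ S ∈ G.edgeFinset.powerset with IsEdgeCovering S, (X : ℂ[X]) ^ #S := by
  unfold edgeCoverPoly coverCount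
  have h : ∀ S ∈ (G.edgeFinset.powerset).filter IsEdgeCovering, #S ∈ range (#G.edgeFinset + 1) := by
    intro S hS
    rw [mem_filter, mem_powerset] at hS
    rw [mem_range]
    exact Nat.lt_succ_of_le (card_le_card hS.1)
  rw [← Finset.sum_fiberwise_of_maps_to h]
  refine sum_congr rfl fun i _ => ?_
  rw [Finset.card_eq_sum_ones, Nat.cast_sum, sum_mul]
  have : ((G.edgeFinset.powerset).filter IsEdgeCovering).filter (fun S => #S = i) =
      (G.edgeFinset.powerset).filter (fun S => #S = i ∧ IsEdgeCovering S) := by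
    ext S; simp only [mem_filter]; tauto
  rw [this]
  refine sum_congr rfl fun S hS => ?_
  rw [mem_filter] at hS
  rw [hS.2.1]; simp

/-- The edges of `G` avoiding `A`. -/
def away (A : Finset V) : Finset (Sym2 V) := {e ∈ G.edgeFinset | ∀ v ∈ A, v ∉ e}

/-- Inclusion–exclusion. -/
theorem poly_incl_excl :
    edgeCoverPoly G = ∑ A : Finset V, (-1 : ℂ[X]) ^ #A * (1 + X) ^ #(away G A) := by
  rw [poly_eq_sum]
  have hbin : ∀ T : Finset (Sym2 V), (1 + X : ℂ[X]) ^ #T = ∑ S ∈ T.powerset, X ^ #S := by
    intro T
    have := Finset.sum_pow_mul_eq_add_pow (X : ℂ[X]) 1 T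
    rw [add_comm 1 X, ← this]
    simp
  have h1 : ∀ A : Finset V, (-1 : ℂ[X]) ^ #A * (1 + X) ^ #(away G A) =
      ∑ S ∈ G.edgeFinset.powerset, if (∀ v ∈ A, ∀ e ∈ S, v ∉ e) then (-1 : ℂ[X]) ^ #A * X ^ #S
        else 0 := by
    intro A
    rw [hbin, mul_sum, ← sum_filter]
    refine sum_congr ?_ fun _ _ => rfl
    ext S
    simp only [away, mem_powerset, mem_filter, subset_iff]
    constructor
    · intro h
      exact ⟨fun e he => (h he).1, fun v hv e he => (h he).2 v hv⟩
    · rintro ⟨h, h'⟩ e he
      exact ⟨h he, fun v hv => h' v hv e he⟩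
  rw [sum_congr rfl fun A _ => h1 A, sum_comm, sum_filter]
  refine sum_congr rfl fun S _ => ?_
  set U : Finset V := {v | ∀ e ∈ S, v ∉ e} with hU
  have h2 : (∑ A : Finset V, if (∀ v ∈ A, ∀ e ∈ S, v ∉ e) then (-1 : ℂ[X]) ^ #A * X ^ #S else 0) =
      (∑ A ∈ U.powerset, (-1 : ℂ[X]) ^ #A) * X ^ #S := by
    rw [← sum_filter, sum_mul]
    refine sum_congr ?_ fun _ _ => rfl
    ext A
    simp only [mem_filter, mem_univ, true_and, mem_powerset, subset_iff, hU]
  rw [h2]
  have h3 : (∑ A ∈ U.powerset, (-1 : ℂ[X]) ^ #A) = if U = ∅ then 1 else 0 := by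
    have := Finset.sum_powerset_neg_one_pow_card (x := U)
    have h' := congrArg (fun z : ℤ => (z : ℂ[X])) this
    push_cast at h'
    rw [h']
  rw [h3]
  have h4 : IsEdgeCovering S ↔ U = ∅ := by
    simp only [IsEdgeCovering, hU, Finset.filter_eq_empty_iff, mem_univ, true_implies]
    push Not
    constructor
    · intro h v; exact h v
    · intro h v; exact @h v
  by_cases h5 : U = ∅
  · rw [if_pos h5, if_pos (h4.mpr h5), one_mul]
  · rw [if_neg h5, if_neg (fun h => h5 (h4.mp h)), zero_mul]

theorem away_empty : away G ∅ = G.edgeFinset := by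
  unfold away; ext e; simp

theorem card_away_add (A : Finset V) (hA : A.Nonempty) :
    #(away G A) + G.minDegree ≤ #G.edgeFinset := by
  obtain ⟨v, hv⟩ := hA
  have h1 : #(away G A) + #(G.incidenceFinset v) ≤ #G.edgeFinset := by
    rw [← card_union_of_disjoint]
    · apply card_le_card
      intro e he
      rw [mem_union] at he
      rcases he with he | he
      · exact (mem_filter.mp he).1
      · rw [SimpleGraph.mem_incidenceFinset] at he
        rw [SimpleGraph.mem_edgeFinset]
        exact he.1
    · rw [disjoint_left]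
      intro e he he'
      rw [SimpleGraph.mem_incidenceFinset] at he'
      exact (mem_filter.mp he).2 v hv he'.2
  have h2 := G.minDegree_le_degree v
  rw [SimpleGraph.card_incidenceFinset_eq_degree] at h1
  omega

/-- The lower order part. -/
noncomputable def lower : ℂ[X] :=
  ∑ A ∈ (univ : Finset (Finset V)).erase ∅, (-1 : ℂ[X]) ^ #A * (1 + X) ^ #(away G A)

theorem poly_split : edgeCoverPoly G = (1 + X) ^ #G.edgeFinset + lower G := by
  rw [poly_incl_excl, lower, ← Finset.add_sum_erase univ _ (mem_univ (∅ : Finset V))]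
  simp [away_empty]

theorem natDegree_one_add_X_pow (k : ℕ) : ((1 + X : ℂ[X]) ^ k).natDegree = k := by
  rw [add_comm, natDegree_pow]
  have : (X + 1 : ℂ[X]).natDegree = 1 := by
    have := natDegree_X_add_C (1 : ℂ)
    simpa using this
  rw [this, mul_one]

theorem natDegree_term (A : Finset V) (c : ℂ) :
    (C c * (1 + X : ℂ[X]) ^ #(away G A)).natDegree ≤ #(away G A) := by
  refine (natDegree_C_mul_le _ _).trans ?_
  rw [natDegree_one_add_X_pow]

theorem natDegree_lower (hm : G.minDegree ≤ #G.edgeFinset) :
    (lower G).natDegree ≤ #G.edgeFinset - G.minDegree := by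
  unfold lower
  refine natDegree_sum_le_of_forall_le _ _ fun A hA => ?_
  have hA' : A.Nonempty := nonempty_iff_ne_empty.mpr (mem_erase.mp hA).1
  have h1 := card_away_add G A hA'
  have h2 := natDegree_term G A ((-1) ^ #A)
  have h3 : (C ((-1 : ℂ) ^ #A) : ℂ[X]) = (-1) ^ #A := by simp
  rw [h3] at h2
  omega

theorem result : ∀ (V : Type) [Fintype V] [DecidableEq V] (G : SimpleGraph V) [DecidableRel G.Adj],
    (G.minDegree : ℕ∞) ≤ Set.encard {z : ℂ | (edgeCoverPoly G).eval z = 0} := by
  intro V _ _ G _
  rcases Nat.eq_zero_or_pos G.minDegree with h0 | hpos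
  · rw [h0]; simp
  set m := #G.edgeFinset with hm
  set E := edgeCoverPoly G with hE
  have hne : Nonempty V := by
    by_contra h
    rw [not_nonempty_iff] at h
    have : G.minDegree = 0 := by
      simp [SimpleGraph.minDegree]
    omega
  obtain ⟨v0⟩ := hne
  have hmδ : G.minDegree ≤ m := by
    have := card_away_add G {v0} (singleton_nonempty _)
    omega
  have hlow := natDegree_lower G hmδ
  have hsplit : E = (1 + X) ^ m + lower G := poly_split G
  have hmonic : ((1 + X : ℂ[X]) ^ m).Monic := by
    rw [add_comm]; exact (monic_X_add_C (1 : ℂ)).pow m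
  have hdlt : (lower G).degree < ((1 + X : ℂ[X]) ^ m).degree := by
    rw [degree_eq_natDegree hmonic.ne_zero, natDegree_one_add_X_pow]
    refine lt_of_le_of_lt degree_le_natDegree ?_
    exact_mod_cast (by omega : (lower G).natDegree < m)
  have hEmonic : E.Monic := by rw [hsplit]; exact hmonic.add_of_left hdlt
  have hEdeg : E.natDegree = m := by
    rw [hsplit, natDegree_eq_of_degree_eq (degree_add_eq_left_of_degree_lt hdlt),
      natDegree_one_add_X_pow]
  have hE0 : E.eval 0 = 0 := by
    rw [hE, poly_eq_sum, eval_finsetSum]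
    refine sum_eq_zero fun S hS => ?_
    have hS' := (mem_filter.mp hS).2 v0
    obtain ⟨e, he, -⟩ := hS'
    have : #S ≠ 0 := by
      rw [Ne, card_eq_zero]; rintro rfl; simp at he
    simp [this]
  -- the auxiliary polynomial
  set T : ℂ[X] := (1 + X) * derivative E - C (m : ℂ) * E with hT
  have hTterm : ∀ k : ℕ, (1 + X) * derivative ((1 + X : ℂ[X]) ^ k) = C (k : ℂ) * (1 + X) ^ k := by
    intro k
    rw [derivative_pow]
    rcases k with _ | k
    · simp
    · simp only [Nat.add_sub_cancel, derivative_add, derivative_one, derivative_X, zero_add,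
        mul_one]
      ring
  have hTlow : T = ∑ A ∈ (univ : Finset (Finset V)).erase ∅,
      C ((-1) ^ #A * ((#(away G A) : ℂ) - m)) * (1 + X) ^ #(away G A) := by
    have hl : (1 + X) * derivative (lower G) - C (m : ℂ) * lower G =
        ∑ A ∈ (univ : Finset (Finset V)).erase ∅,
          C ((-1) ^ #A * ((#(away G A) : ℂ) - m)) * (1 + X) ^ #(away G A) := by
      unfold lower
      rw [derivative_sum, mul_sum, mul_sum, ← sum_sub_distrib]
      refine sum_congr rfl fun A _ => ?_
      have hc : ((-1 : ℂ[X]) ^ #A) = C ((-1 : ℂ) ^ #A) := by simp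
      rw [hc, derivative_C_mul, ← mul_assoc, mul_comm (1 + X) (C _), mul_assoc, hTterm]
      simp only [C_mul, C_sub]
      ring
    rw [← hl, hT, hsplit, derivative_add, mul_add, hTterm]
    ring
  have hTdeg : T.natDegree ≤ m - G.minDegree := by
    rw [hTlow]
    refine natDegree_sum_le_of_forall_le _ _ fun A hA => ?_
    have hA' : A.Nonempty := nonempty_iff_ne_empty.mpr (mem_erase.mp hA).1
    have h1 := card_away_add G A hA'
    have h2 := natDegree_term G A ((-1) ^ #A * ((#(away G A) : ℂ) - m))
    omega
  have hEne : E ≠ 0 := hEmonic.ne_zero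
  have hmC : (m : ℂ) ≠ 0 := by
    have : m ≠ 0 := by omega
    exact_mod_cast this
  have hTne : T ≠ 0 := by
    intro h0T
    have h1 : (1 + X) * derivative E = C (m : ℂ) * E := sub_eq_zero.mp h0T
    have hr : E.IsRoot 0 := hE0
    have h2 : rootMultiplicity 0 (derivative E) = rootMultiplicity 0 E - 1 :=
      derivative_rootMultiplicity_of_root hr
    have h3 : 0 < rootMultiplicity 0 E := (rootMultiplicity_pos hEne).mpr hr
    have hne2 : C (m : ℂ) * E ≠ 0 := mul_ne_zero (C_ne_zero.mpr hmC) hEne
    have h4 : rootMultiplicity 0 (C (m : ℂ) * E) = rootMultiplicity 0 E := by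
      rw [rootMultiplicity_mul hne2, rootMultiplicity_C, zero_add]
    have h5 : rootMultiplicity 0 ((1 + X) * derivative E) = rootMultiplicity 0 (derivative E) := by
      rw [rootMultiplicity_mul (by rw [h1]; exact hne2)]
      have : rootMultiplicity 0 (1 + X : ℂ[X]) = 0 := by
        rw [rootMultiplicity_eq_zero_iff]
        intro h; simp [IsRoot] at h
      rw [this, zero_add]
    rw [h1, h4] at h5
    omega
  -- counting
  have hcount : ∀ a ∈ E.roots.toFinset, E.roots.count a ≤ T.roots.count a + 1 := by
    intro a _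
    rw [count_roots, count_roots]
    have h1 : (X - C a) ^ (rootMultiplicity a E - 1) ∣ T := by
      rw [hT]
      apply dvd_sub
      · apply Dvd.dvd.mul_left
        exact pow_sub_one_dvd_derivative_of_pow_dvd (pow_rootMultiplicity_dvd E a)
      · apply Dvd.dvd.mul_left
        exact (pow_dvd_pow _ (Nat.sub_le _ _)).trans (pow_rootMultiplicity_dvd E a)
    have h2 := (le_rootMultiplicity_iff hTne).mpr h1
    omega
  have hsum : m ≤ Multiset.card T.roots + #E.roots.toFinset := by
    have h1 : Multiset.card E.roots = m := by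
      rw [← hEdeg]
      exact (splits_iff_card_roots.mp (IsAlgClosed.splits E))
    rw [← h1, ← Multiset.toFinset_sum_count_eq]
    calc ∑ a ∈ E.roots.toFinset, E.roots.count a
        ≤ ∑ a ∈ E.roots.toFinset, (T.roots.count a + 1) := sum_le_sum hcount
      _ = ∑ a ∈ E.roots.toFinset, T.roots.count a + #E.roots.toFinset := by
        rw [sum_add_distrib, ← card_eq_sum_ones]
      _ ≤ Multiset.card T.roots + #E.roots.toFinset := by
        gcongr
        calc ∑ a ∈ E.roots.toFinset, T.roots.count a
            ≤ ∑ a ∈ E.roots.toFinset ∪ T.roots.toFinset, T.roots.count a :=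
              sum_le_sum_of_subset subset_union_left
          _ = Multiset.card T.roots := by
              rw [← Multiset.toFinset_sum_count_eq]
              symm
              apply sum_subset subset_union_right
              intro a _ ha
              exact Multiset.count_eq_zero.mpr (fun h => ha (Multiset.mem_toFinset.mpr h))
  have hTroots : Multiset.card T.roots ≤ m - G.minDegree := (card_roots' T).trans hTdeg
  have hfin : G.minDegree ≤ #E.roots.toFinset := by omega
  have hset : {z : ℂ | E.eval z = 0} = (E.roots.toFinset : Set ℂ) := by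
    ext z
    simp [hEne, IsRoot]
  rw [hset, Set.encard_coe_eq_coe_finsetCard]
  exact_mod_cast hfin

end Pool.Agent.Results.MP_a87573_co.DistinctRoots
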